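import Pool.Agent.Helper98.FC.Final


set_option autoImplicit false

/-!
# Arc bijections of strong tournaments under which the 4-circuits correspond

Let `T`, `T'` be finite strong tournaments and let `φ` be a bijection between their arc sets such that `φ` maps
4-circuits to 4-circuits and `φ⁻¹` maps 4-circuits to 4-circuits (no condition on 3-circuits).  Then `T'` is isomorphic
to `T` or to the converse of `T`.
-/

namespace Pool.Agent.Results.MP_ebd9af_co.FourCircuitsBothWays

universe u v

/-- `T` is a tournament on the vertex set `V`: no loops, and exactly one arc between any two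
distinct vertices (`T a b` means that `ab` is an arc). -/
def IsTournament {V : Type u} (T : V → V → Prop) : Prop :=
  (∀ a, ¬ T a a) ∧ ∀ a b, a ≠ b → (T a b ∨ T b a) ∧ ¬ (T a b ∧ T b a)

/-- `T` is strong: there is a directed path from any vertex to any vertex. -/
def IsStrong {V : Type u} (T : V → V → Prop) : Prop := ∀ a b, Relation.ReflTransGen T a b

/-- The type of arcs of `T`. -/
abbrev Arc {V : Type u} (T : V → V → Prop) : Type u := {p : V × V // T p.1 p.2}

/-- `C` is (the arc set of) a 4-circuit of `T`: distinct vertices `a`, `b`, `c`, `d` with arcs `ab`, `bc`, `cd`, `da`. -/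
def IsFourCircuit {V : Type u} (T : V → V → Prop) (C : Set (Arc T)) : Prop :=
  ∃ a b c d : V, a ≠ b ∧ a ≠ c ∧ a ≠ d ∧ b ≠ c ∧ b ≠ d ∧ c ≠ d ∧
    ∃ (hab : T a b) (hbc : T b c) (hcd : T c d) (hda : T d a),
      C = {⟨(a, b), hab⟩, ⟨(b, c), hbc⟩, ⟨(c, d), hcd⟩, ⟨(d, a), hda⟩}

/-- `φ` maps 4-circuits to 4-circuits. -/
def MapsFourCircuits {V : Type u} {W : Type v} {T : V → V → Prop} {T' : W → W → Prop} (φ : Arc T → Arc T') : Prop :=
  ∀ C : Set (Arc T), IsFourCircuit T C → IsFourCircuit T' (φ '' C)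

/-- Isomorphism of digraphs. -/
def Isomorphic {V : Type u} {W : Type v} (T : V → V → Prop) (T' : W → W → Prop) : Prop :=
  ∃ σ : V ≃ W, ∀ a b, T a b ↔ T' (σ a) (σ b)

/-- The converse of `T`. -/
def conv {V : Type u} (T : V → V → Prop) : V → V → Prop := fun a b => T b a

open Pool.Agent.Helper98.FC

/-- a tournament as a structure -/
def toTour {V : Type u} {T : V → V → Prop} (h : IsTournament T) : Tour V where
  R := T
  asym a b h1 h2 := by
    by_cases e : a = b
    · subst e
      exact h.1 _ h1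
    · exact (h.2 a b e).2 ⟨h1, h2⟩
  tot a b e := (h.2 a b e).1

open Classical in
/-- extension of a map between arcs to all pairs -/
noncomputable def ext {V : Type u} {W : Type v} {T : V → V → Prop} {T' : W → W → Prop} [Nonempty W]
    (φ : Arc T → Arc T') (p : V × V) : W × W :=
  if h : T p.1 p.2 then (φ ⟨p, h⟩).1 else Classical.arbitrary _

theorem ext_eq {V : Type u} {W : Type v} {T : V → V → Prop} {T' : W → W → Prop} [Nonempty W]
    (φ : Arc T → Arc T') (p : Arc T) : ext φ p.1 = (φ p).1 := by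
  unfold ext
  rw [dif_pos p.2]

theorem ext_C {V : Type u} {W : Type v} {T : V → V → Prop} {T' : W → W → Prop} [Nonempty W] (hT : IsTournament T)
    (hT' : IsTournament T') {φ : Arc T → Arc T'} (h : MapsFourCircuits φ) (a b c d : V)
    (hC : (toTour hT).C4 a b c d) :
    ∃ w x y z, (toTour hT').C4 w x y z ∧ ext φ '' arcs4 a b c d = arcs4 w x y z := by
  have n := hC.nes
  obtain ⟨hab, hbc, hcd, hda⟩ := hC
  obtain ⟨w, x, y, z, -, -, -, -, -, -, hwx, hxy, hyz, hzw, he⟩ :=
    h _ ⟨a, b, c, d, n.1, n.2.1, n.2.2.1, n.2.2.2.1, n.2.2.2.2.1, n.2.2.2.2.2, hab, hbc, hcd, hda, rfl⟩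
  refine ⟨w, x, y, z, ⟨hwx, hxy, hyz, hzw⟩, ?_⟩
  have h1 : arcs4 a b c d = Subtype.val ''
      ({⟨(a, b), hab⟩, ⟨(b, c), hbc⟩, ⟨(c, d), hcd⟩, ⟨(d, a), hda⟩} : Set (Arc T)) := by
    simp only [Set.image_insert_eq, Set.image_singleton, arcs4]
  have h2 : arcs4 w x y z = Subtype.val ''
      ({⟨(w, x), hwx⟩, ⟨(x, y), hxy⟩, ⟨(y, z), hyz⟩, ⟨(z, w), hzw⟩} : Set (Arc T')) := by
    simp only [Set.image_insert_eq, Set.image_singleton, arcs4]
  rw [h1, h2, ← he, Set.image_image, Set.image_image]
  apply Set.image_congr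
  intro p _
  exact ext_eq φ p

/-- the map of the proof -/
noncomputable def toPhi {V : Type u} {W : Type v} {T : V → V → Prop} {T' : W → W → Prop} [Nonempty V] [Nonempty W]
    (hT : IsTournament T) (hT' : IsTournament T') (φ : Arc T ≃ Arc T') (h : MapsFourCircuits φ)
    (h' : MapsFourCircuits φ.symm) : Phi (toTour hT) (toTour hT') where
  f := ext φ
  g := ext φ.symm
  fa p hp := by
    rw [ext_eq φ ⟨p, hp⟩]
    exact (φ ⟨p, hp⟩).2
  ga q hq := by
    rw [ext_eq φ.symm ⟨q, hq⟩]
    exact (φ.symm ⟨q, hq⟩).2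
  gf p hp := by
    rw [ext_eq φ ⟨p, hp⟩, ext_eq φ.symm, Equiv.symm_apply_apply]
  fg q hq := by
    rw [ext_eq φ.symm ⟨q, hq⟩, ext_eq φ, Equiv.apply_symm_apply]
  fC := ext_C hT hT' h
  gC := ext_C hT' hT h'

/-- **Theorem.** If `T`, `T'` are finite strong tournaments and `φ` is a bijection between their arcs such that `φ` and
`φ⁻¹` map 4-circuits to 4-circuits, then `T'` is isomorphic to `T` or to the converse of `T`. -/
theorem result {V : Type u} {W : Type v} [Finite V] [Finite W] [Nonempty V] [Nonempty W] (T : V → V → Prop)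
    (T' : W → W → Prop) (hT : IsTournament T) (hT' : IsTournament T') (hs : IsStrong T) (hs' : IsStrong T')
    (φ : Arc T ≃ Arc T') (h : MapsFourCircuits φ) (h' : MapsFourCircuits φ.symm) :
    Isomorphic T T' ∨ Isomorphic (conv T) T' :=
  main (T := toTour hT) (T' := toTour hT') hs hs' (toPhi hT hT' φ h h')

end Pool.Agent.Results.MP_ebd9af_co.FourCircuitsBothWays
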