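import Mathlib

set_option autoImplicit false
set_option maxHeartbeats 4000000

/-!
# Arc bijections of strong tournaments mapping 4-circuits into 4-circuits

For every `n ≥ 5` we give strong tournaments `T₁`, `T₂` with `n` vertices and a bijection between
their arc sets which maps 4-circuits of `T₁` into 4-circuits of `T₂` (and also 3-circuits into
3-circuits), while `T₂` is isomorphic neither to `T₁` nor to the converse of `T₁`.
-/

namespace Pool.Agent.Results.MP_ebd9af_co.FourCircuitsNotEnough

/-- `T` is a tournament on the vertex set `V`: no loops, and exactly one arc between any two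
distinct vertices (`T u v` means that `uv` is an arc). -/
def IsTournament {V : Type} (T : V → V → Prop) : Prop :=
  (∀ v, ¬ T v v) ∧ ∀ u v, u ≠ v → (T u v ∨ T v u) ∧ ¬ (T u v ∧ T v u)

/-- `T` is strong: there is a directed path from any vertex to any vertex. -/
def IsStrong {V : Type} (T : V → V → Prop) : Prop := ∀ u v, Relation.ReflTransGen T u v

/-- The type of arcs of `T`. -/
abbrev Arc {V : Type} (T : V → V → Prop) : Type := {a : V × V // T a.1 a.2}

/-- `C` is (the arc set of) a `k`-circuit of `T`: the set of arcs `c i → c (i+1)` (indices mod `k`)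
for some distinct vertices `c 0, …, c (k-1)`. -/
def IsCircuit {V : Type} (T : V → V → Prop) (k : ℕ) (C : Set (Arc T)) : Prop :=
  ∃ c : ZMod k → V, Function.Injective c ∧ ∃ h : ∀ i, T (c i) (c (i + 1)),
    C = Set.range fun i => (⟨(c i, c (i + 1)), h i⟩ : Arc T)

/-- `φ` maps `k`-circuits into `k`-circuits. -/
def MapsCircuits {V W : Type} {T : V → V → Prop} {T' : W → W → Prop} (φ : Arc T → Arc T')
    (k : ℕ) : Prop :=
  ∀ C : Set (Arc T), IsCircuit T k C → IsCircuit T' k (φ '' C)

/-- Isomorphism of digraphs. -/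
def Isomorphic {V W : Type} (T : V → V → Prop) (T' : W → W → Prop) : Prop :=
  ∃ σ : V ≃ W, ∀ u v, T u v ↔ T' (σ u) (σ v)

/-- The converse of `T`. -/
def conv {V : Type} (T : V → V → Prop) : V → V → Prop := fun u v => T v u

/-! ### The two tournaments -/

/-- `i → i+1`, and `j → i` whenever `j ≥ i + 2`. -/
def T1 (n : ℕ) (u v : Fin n) : Prop := v.val = u.val + 1 ∨ v.val + 2 ≤ u.val

/-- `T1` with the arc `n-1 → 0` reversed. -/
def T2 (n : ℕ) (u v : Fin n) : Prop :=
  (T1 n u v ∧ ¬ (u.val + 1 = n ∧ v.val = 0)) ∨ (u.val = 0 ∧ v.val + 1 = n)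

lemma T1_tournament (n : ℕ) : IsTournament (T1 n) := by
  refine ⟨fun v => ?_, fun u v huv => ?_⟩
  · unfold T1; omega
  · have : u.val ≠ v.val := fun h => huv (Fin.ext h)
    unfold T1; omega

lemma T2_tournament (n : ℕ) (hn : 5 ≤ n) : IsTournament (T2 n) := by
  refine ⟨fun v => ?_, fun u v huv => ?_⟩
  · unfold T2 T1; omega
  · have : u.val ≠ v.val := fun h => huv (Fin.ext h)
    have hu := u.isLt
    have hv := v.isLt
    unfold T2 T1; omega

/-- any relation containing the ascending path and the arcs `n-1 → 2 → 0` is strong -/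
lemma strong_of {n : ℕ} (hn : 5 ≤ n) (T : Fin n → Fin n → Prop)
    (h1 : ∀ u v : Fin n, v.val = u.val + 1 → T u v)
    (h2 : T ⟨n - 1, by omega⟩ ⟨2, by omega⟩) (h3 : T ⟨2, by omega⟩ ⟨0, by omega⟩) :
    IsStrong T := by
  have up : ∀ (d : ℕ) (u v : Fin n), v.val = u.val + d → Relation.ReflTransGen T u v := by
    intro d
    induction d with
    | zero =>
      intro u v h
      have : u = v := Fin.ext (by omega)
      rw [this]
    | succ d ih =>
      intro u v h
      have hv := v.isLt
      exact (ih u ⟨u.val + d, by omega⟩ rfl).tail (h1 _ _ (by simp only []; omega))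
  intro u v
  have hu := u.isLt
  have a1 : Relation.ReflTransGen T u ⟨n - 1, by omega⟩ := up (n - 1 - u.val) _ _ (by simp only []; omega)
  have a2 : Relation.ReflTransGen T ⟨0, by omega⟩ v := up v.val _ _ (by simp only []; omega)
  exact ((a1.tail h2).tail h3).trans a2

lemma T1_strong (n : ℕ) (hn : 5 ≤ n) : IsStrong (T1 n) := by
  apply strong_of hn
  · intro u v h; exact Or.inl h
  · right; simp only []; omega
  · right; simp only []; omega

lemma T2_strong (n : ℕ) (hn : 5 ≤ n) : IsStrong (T2 n) := by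
  apply strong_of hn
  · intro u v h; left; exact ⟨Or.inl h, by omega⟩
  · left; unfold T1; simp only []; omega
  · left; unfold T1; simp only []; omega

/-- the arc `n-1 → 0` is recognised by its values -/
def IsBack {n : ℕ} (u v : Fin n) : Prop := u.val + 1 = n ∧ v.val = 0

instance {n : ℕ} (u v : Fin n) : Decidable (IsBack u v) := by unfold IsBack; infer_instance

lemma T2_of_T1 {n : ℕ} {u v : Fin n} (h : T1 n u v) (hb : ¬ IsBack u v) : T2 n u v :=
  Or.inl ⟨h, hb⟩

/-- the bijection between arcs: reverse `n-1 → 0`, keep every other arc -/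
def phi (n : ℕ) (hn : 5 ≤ n) : Arc (T1 n) ≃ Arc (T2 n) where
  toFun a := if h : IsBack a.1.1 a.1.2 then ⟨(a.1.2, a.1.1), Or.inr ⟨h.2, h.1⟩⟩
    else ⟨a.1, T2_of_T1 a.2 h⟩
  invFun b := if h : IsBack b.1.2 b.1.1 then ⟨(b.1.2, b.1.1), by
      right; obtain ⟨h1, h2⟩ := h; simp only []; omega⟩
    else ⟨b.1, by
      rcases b.2 with h1 | h1
      · exact h1.1
      · exact absurd ⟨h1.2, h1.1⟩ h⟩
  left_inv a := by
    by_cases h : IsBack a.1.1 a.1.2
    · simp only [dif_pos h]
    · have h' : ¬ IsBack a.1.2 a.1.1 := by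
        intro hb
        have := a.2
        unfold T1 at this
        obtain ⟨h1, h2⟩ := hb
        omega
      simp only [dif_neg h, dif_neg h']
  right_inv b := by
    by_cases h : IsBack b.1.2 b.1.1
    · simp only [dif_pos h]
    · have h' : ¬ IsBack b.1.1 b.1.2 := by
        intro hb
        have := b.2
        unfold T2 T1 at this
        obtain ⟨h1, h2⟩ := hb
        omega
      simp only [dif_neg h, dif_neg h']

lemma phi_apply {n : ℕ} (hn : 5 ≤ n) (a : Arc (T1 n)) (h : ¬ IsBack a.1.1 a.1.2) :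
    (phi n hn a).1 = a.1 := by
  simp only [phi, Equiv.coe_fn_mk, dif_neg h]

/-- the arc `n-1 → 0` lies on no circuit of length 3 or 4 -/
lemma maps_of_not_back {n : ℕ} (hn : 5 ≤ n) (k : ℕ)
    (hk : ∀ c : ZMod k → Fin n, (∀ i, T1 n (c i) (c (i + 1))) → ∀ i, ¬ IsBack (c i) (c (i + 1))) :
    MapsCircuits (phi n hn) k := by
  rintro C ⟨c, hc, h, rfl⟩
  have hb := hk c h
  refine ⟨c, hc, fun i => T2_of_T1 (h i) (hb i), ?_⟩
  rw [← Set.range_comp]
  congr 1
  funext i
  apply Subtype.ext
  exact phi_apply hn ⟨(c i, c (i + 1)), h i⟩ (hb i)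

lemma maps_three {n : ℕ} (hn : 5 ≤ n) : MapsCircuits (phi n hn) 3 := by
  apply maps_of_not_back hn
  intro c h i hb
  have h1 := h (i + 1)
  have h2 := h (i + 1 + 1)
  have h3 : i + 1 + 1 + 1 = i := by
    have : (1 + 1 + 1 : ZMod 3) = 0 := by decide
    rw [add_assoc, add_assoc, ← add_assoc 1 1 1, this, add_zero]
  rw [h3] at h2
  have l1 := (c (i + 1)).isLt
  have l2 := (c (i + 1 + 1)).isLt
  obtain ⟨hb1, hb2⟩ := hb
  unfold T1 at h1 h2
  omega

lemma maps_four {n : ℕ} (hn : 5 ≤ n) : MapsCircuits (phi n hn) 4 := by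
  apply maps_of_not_back hn
  intro c h i hb
  have h1 := h (i + 1)
  have h2 := h (i + 1 + 1)
  have h3 := h (i + 1 + 1 + 1)
  have h4 : i + 1 + 1 + 1 + 1 = i := by
    have : (1 + 1 + 1 + 1 : ZMod 4) = 0 := by decide
    rw [add_assoc, add_assoc, add_assoc, ← add_assoc 1 1 1, ← add_assoc 1 (1 + 1) 1, ← add_assoc 1 1 1, this, add_zero]
  rw [h4] at h3
  have l1 := (c (i + 1)).isLt
  have l2 := (c (i + 1 + 1)).isLt
  have l3 := (c (i + 1 + 1 + 1)).isLt
  obtain ⟨hb1, hb2⟩ := hb
  unfold T1 at h1 h2 h3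
  omega

/-- vertex with exactly one out-neighbour -/
def OutOne {V : Type} (T : V → V → Prop) (v : V) : Prop := ∀ x y, T v x → T v y → x = y

lemma T2_outOne {n : ℕ} (hn : 5 ≤ n) {v : Fin n} (h : OutOne (T2 n) v) : v.val = 1 := by
  by_contra hv
  have hvn := v.isLt
  rcases Nat.eq_zero_or_pos v.val with h0 | h0
  · have := h ⟨1, by omega⟩ ⟨n - 1, by omega⟩ (by left; unfold T1; simp only []; omega)
      (by right; simp only []; omega)
    rw [Fin.mk.injEq] at this; omega
  · by_cases hl : v.val + 1 = n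
    · have := h ⟨1, by omega⟩ ⟨2, by omega⟩ (by left; unfold T1; simp only []; omega)
        (by left; unfold T1; simp only []; omega)
      rw [Fin.mk.injEq] at this; omega
    · have := h ⟨v.val + 1, by omega⟩ ⟨0, by omega⟩ (Or.inl ⟨Or.inl rfl, fun h => hl h.1⟩)
        (Or.inl ⟨Or.inr (by show 0 + 2 ≤ v.val; omega), fun h => hl h.1⟩)
      rw [Fin.mk.injEq] at this; omega

lemma outOne_map {V W : Type} {T : V → V → Prop} {T' : W → W → Prop} (σ : V ≃ W)
    (h : ∀ u v, T u v ↔ T' (σ u) (σ v)) {v : V} (hv : OutOne T v) : OutOne T' (σ v) := by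
  intro x y hx hy
  have h1 := hv (σ.symm x) (σ.symm y) ((h _ _).mpr (by simpa using hx)) ((h _ _).mpr (by simpa using hy))
  exact σ.symm.injective h1

lemma not_iso_of_two {n : ℕ} (hn : 5 ≤ n) {T : Fin n → Fin n → Prop} {a b : Fin n} (hab : a ≠ b)
    (ha : OutOne T a) (hb : OutOne T b) : ¬ Isomorphic T (T2 n) := by
  rintro ⟨σ, h⟩
  have h1 := T2_outOne hn (outOne_map σ h ha)
  have h2 := T2_outOne hn (outOne_map σ h hb)
  exact hab (σ.injective (Fin.ext (h1.trans h2.symm)))

/-- **Main theorem.** For every `n ≥ 5` there are strong tournaments `T`, `T'` on `n` vertices and a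
bijection between their arc sets mapping 4-circuits into 4-circuits (and 3-circuits into
3-circuits) although `T'` is isomorphic neither to `T` nor to the converse of `T`. -/
theorem result (n : ℕ) (hn : 5 ≤ n) :
    ∃ (T T' : Fin n → Fin n → Prop) (φ : Arc T ≃ Arc T'),
      IsTournament T ∧ IsTournament T' ∧ IsStrong T ∧ IsStrong T' ∧
      MapsCircuits φ 4 ∧ MapsCircuits φ 3 ∧
      ¬ Isomorphic T T' ∧ ¬ Isomorphic (conv T) T' := by
  refine ⟨T1 n, T2 n, phi n hn, T1_tournament n, T2_tournament n hn, T1_strong n hn,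
    T2_strong n hn, maps_four hn, maps_three hn, ?_, ?_⟩
  · apply not_iso_of_two hn (a := ⟨0, by omega⟩) (b := ⟨1, by omega⟩)
    · intro h; rw [Fin.mk.injEq] at h; omega
    · intro x y hx hy; unfold T1 at hx hy; apply Fin.ext; simp only [] at hx hy; omega
    · intro x y hx hy; unfold T1 at hx hy; apply Fin.ext; simp only [] at hx hy; omega
  · apply not_iso_of_two hn (a := ⟨n - 1, by omega⟩) (b := ⟨n - 2, by omega⟩)
    · intro h; rw [Fin.mk.injEq] at h; omega
    · intro x y hx hy
      have lx := x.isLt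
      have ly := y.isLt
      unfold conv T1 at hx hy; apply Fin.ext; simp only [] at hx hy; omega
    · intro x y hx hy
      have lx := x.isLt
      have ly := y.isLt
      unfold conv T1 at hx hy; apply Fin.ext; simp only [] at hx hy; omega

end Pool.Agent.Results.MP_ebd9af_co.FourCircuitsNotEnough
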